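import Pool.Agent.Y234.EM.Stm

set_option autoImplicit false

namespace Pool.Agent.Y407.EM

open Pool.Agent.Y234.EM

/-- The component of the origin. -/
theorem comp : S_COMP := by
  intro k _ v L0 I _
  have hArt : IsArtinianRing (MvPolynomial (Fin v) k ⧸ I) := IsArtinianRing.of_finite k _
  have hNoe : IsNoetherianRing (MvPolynomial (Fin v) k ⧸ I) := inferInstance
  let m : Ideal (MvPolynomial (Fin v) k ⧸ I) := (mm k v).map (Ideal.Quotient.mk I)
  let f : ℕ →o (Ideal (MvPolynomial (Fin v) k ⧸ I))ᵒᵈ :=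
    ⟨fun n => OrderDual.toDual (m ^ n), fun a b h => Ideal.pow_le_pow_right h⟩
  obtain ⟨L1, hL1⟩ := IsArtinian.monotone_stabilizes f
  have h1 : ∀ n, L1 ≤ n → m ^ L1 = m ^ n := fun n hn => hL1 n hn
  have hK : IsIdempotentElem (m ^ (max L0 L1)) := by
    have h5 : m ^ (max L0 L1 + max L0 L1) = m ^ (max L0 L1) * m ^ (max L0 L1) := pow_add m _ _
    have h6 : m ^ (max L0 L1 + max L0 L1) = m ^ (max L0 L1) :=
      (h1 _ ((le_max_right L0 L1).trans (Nat.le_add_left _ _))).symm.trans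
        (h1 _ (le_max_right L0 L1))
    exact h5.symm.trans h6
  obtain ⟨g, hg, hgs⟩ := (Ideal.isIdempotentElem_iff_of_fg _ (IsNoetherian.noetherian _)).1 hK
  refine ⟨max L0 L1, le_max_left _ _, 1 - g, hg.one_sub, ?_⟩
  have h2 : Ideal.span {1 - (1 - g)} =
      (mm k v ^ (max L0 L1)).map (Ideal.Quotient.mkₐ k I) := by
    rw [sub_sub_cancel]
    have h3 : (mm k v ^ (max L0 L1)).map (Ideal.Quotient.mk I) = m ^ (max L0 L1) :=
      Ideal.map_pow (Ideal.Quotient.mk I) (mm k v) _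
    exact (h3.trans hgs).symm
  exact ⟨(Ideal.quotientEquivAlgOfEq k h2).trans (DoubleQuot.quotQuotEquivQuotSupₐ k I _)⟩

end Pool.Agent.Y407.EM
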